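import Pool.Agent.H362.MH.Geo

set_option autoImplicit false

/-!
# Uniqueness fails for two immiscible fluids, for a continuous force and among Leray-Hopf solutions

The model case of the problem: the initial density takes two constant values. Let `Ω ⊂ ℝ³` be any bounded open set that contains `0`
(by translation, any bounded nonempty open set), `T > 0`, and `σ` any function (the conductivity). The viscosity is `1`. There are

* an open set `U ≠ ∅` with closure in `Ω`, whose boundary has measure zero and whose closure is not all of `Ω`: the fluid has density `2`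
  in `U` and density `1` in the rest of `Ω` at time `0`;
* a force `F`, a continuous vector field on `ℝ × ℝ³` with compact support contained in `[0,T] × Ω`;

such that for the data `ρ₀ = 1 + 1_U`, `u₀ = 0`, `B₀ = 0`, `F` there are two weak solutions `(ρ₁, u₁, 0)` and `(ρ₂, u₂, 0)` on
`Ω × [0,T]` with `u₁ ≠ u₂`; both satisfy the energy inequality.
-/

open MeasureTheory Set Filter Topology
open scoped InnerProductSpace ENNReal ContDiff

namespace Pool.Agent.Results.MP_59296a_an.TwoFluidNonUniqueness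

noncomputable section

/-! ### Notation -/

/-- Three dimensional Euclidean space. -/
abbrev E3 := EuclideanSpace ℝ (Fin 3)

/-- Real `3 × 3` matrices with the Frobenius norm. -/
abbrev M3 := EuclideanSpace ℝ (Fin 3 × Fin 3)

/-- Lebesgue measure on `Ω` -/
abbrev vol (Ω : Set E3) : Measure E3 := volume.restrict Ω

/-- `L²(Ω)` -/
abbrev SL (Ω : Set E3) : Type := Lp ℝ 2 (vol Ω)

/-- `L²(Ω)³` -/
abbrev VL (Ω : Set E3) : Type := Lp E3 2 (vol Ω)

/-- `L²(Ω)^{3×3}` -/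
abbrev ML (Ω : Set E3) : Type := Lp M3 2 (vol Ω)

/-- the values of an element of `L²(Ω)` -/
abbrev sval {Ω : Set E3} (r : SL Ω) : E3 → ℝ := r

/-- the values of an element of `L²(Ω)³` -/
abbrev vval {Ω : Set E3} (v : VL Ω) : E3 → E3 := v

/-- the values of an element of `L²(Ω)^{3×3}` -/
abbrev mval {Ω : Set E3} (z : ML Ω) : E3 → M3 := z

/-- the norm of `L²(Ω)³` -/
abbrev vnorm {Ω : Set E3} (v : VL Ω) : ℝ := ‖v‖

/-- the norm of `L²(Ω)^{3×3}` -/
abbrev mnorm {Ω : Set E3} (z : ML Ω) : ℝ := ‖z‖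

/-- the scalar product of `L²(Ω)³` -/
abbrev vinner {Ω : Set E3} (v w : VL Ω) : ℝ := ⟪v, w⟫_ℝ

/-- the zero field -/
abbrev vzero (Ω : Set E3) : ℝ → VL Ω := fun _ => 0

/-- the zero matrix field -/
abbrev mzero (Ω : Set E3) : ℝ → ML Ω := fun _ => 0

/-- `∫_Ω g` -/
abbrev integral (Ω : Set E3) (g : E3 → ℝ) : ℝ := ∫ x in Ω, g x

/-- `∫₀ᵀ h` -/
abbrev integralT (T : ℝ) (h : ℝ → ℝ) : ℝ := ∫ t in Ioo 0 T, h t

/-- `p` holds almost everywhere in `Ω` -/
abbrev AEin (Ω : Set E3) (p : E3 → Prop) : Prop := ∀ᵐ x ∂(vol Ω), p x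

/-- the scalar product of `ℝ³` -/
abbrev dot (a b : E3) : ℝ := ⟪a, b⟫_ℝ

/-- The vector product. -/
def cross (a b : E3) : E3 :=
  WithLp.toLp 2 ![a 1 * b 2 - a 2 * b 1, a 2 * b 0 - a 0 * b 2, a 0 * b 1 - a 1 * b 0]

/-- The Jacobian matrix: its `(i, j)` entry is `∂φ_i/∂x_j`. -/
def jac (φ : E3 → E3) (x : E3) : M3 :=
  WithLp.toLp 2 fun p => fderiv ℝ φ x (EuclideanSpace.single p.2 1) p.1

/-- The divergence of a field whose Jacobian matrix is `z`. -/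
abbrev div (z : M3) : ℝ := ∑ i, z (i, i)

/-- The curl of a field whose Jacobian matrix is `z`. -/
def curl (z : M3) : E3 :=
  WithLp.toLp 2 ![z (2, 1) - z (1, 2), z (0, 2) - z (2, 0), z (1, 0) - z (0, 1)]

/-- `(a ⊗ a) : z` -/
abbrev quad (a : E3) (z : M3) : ℝ := ∑ i, ∑ j, a i * a j * z (i, j)

/-- `(z + zᵀ) : w` -/
abbrev symm (z w : M3) : ℝ := ∑ i, ∑ j, (z (i, j) + z (j, i)) * w (i, j)

/-- The time derivative of a scalar function. -/
def dts (ψ : ℝ → E3 → ℝ) (t : ℝ) (x : E3) : ℝ := deriv (fun s => ψ s x) t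

/-- The time derivative of a field. -/
def dtv (φ : ℝ → E3 → E3) (t : ℝ) (x : E3) : E3 := deriv (fun s => φ s x) t

/-! ### Test functions -/

/-- Divergence free test fields: smooth, with compact support contained in `Ω`. -/
structure IsTest (Ω : Set E3) (φ : E3 → E3) : Prop where
  smooth : ContDiff ℝ ∞ φ
  compact : HasCompactSupport φ
  supp : tsupport φ ⊆ Ω
  divfree : ∀ x, div (jac φ x) = 0

/-- scalar functions, smooth on `ℝ × ℝ³`, with compact support contained in `(-∞,T) × A` -/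
structure STest (T : ℝ) (A : Set E3) (ψ : ℝ → E3 → ℝ) : Prop where
  smooth : ContDiff ℝ ∞ (fun p : ℝ × E3 => ψ p.1 p.2)
  compact : HasCompactSupport (fun p : ℝ × E3 => ψ p.1 p.2)
  supp : tsupport (fun p : ℝ × E3 => ψ p.1 p.2) ⊆ Iio T ×ˢ A

/-- vector fields, smooth on `ℝ × ℝ³`, with compact support contained in `(-∞,T) × A` -/
structure VTest (T : ℝ) (A : Set E3) (φ : ℝ → E3 → E3) : Prop where
  smooth : ContDiff ℝ ∞ (fun p : ℝ × E3 => φ p.1 p.2)
  compact : HasCompactSupport (fun p : ℝ × E3 => φ p.1 p.2)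
  supp : tsupport (fun p : ℝ × E3 => φ p.1 p.2) ⊆ Iio T ×ˢ A

/-! ### Function spaces -/

/-- `H`: the closure in `L²(Ω)³` of the divergence free test fields. -/
def H (Ω : Set E3) : Set (VL Ω) := closure {v | ∃ φ, IsTest Ω φ ∧ AEin Ω fun x => vval v x = φ x}

/-- The graph of the gradient on `V`: the closure of the pairs `(φ, ∇φ)`, `φ` a divergence free test field, in
`L²(Ω)³ × L²(Ω)^{3×3}`. So `(v, z) ∈ V Ω` means that `v` belongs to the closure `V` of the divergence free test fields in `H¹(Ω)³` and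
that `z = ∇v`. -/
def V (Ω : Set E3) : Set (VL Ω × ML Ω) :=
  closure {p | ∃ φ, IsTest Ω φ ∧ (AEin Ω fun x => vval p.1 x = φ x) ∧ AEin Ω fun x => mval p.2 x = jac φ x}

/-- `z` is the weak gradient of `v ∈ L²(Ω)³`. -/
def IsWeakGrad (Ω : Set E3) (v : VL Ω) (z : ML Ω) : Prop :=
  ∀ ψ : E3 → ℝ, ContDiff ℝ ∞ ψ → HasCompactSupport ψ → tsupport ψ ⊆ Ω → ∀ i j : Fin 3,
    integral Ω (fun x => vval v x i * fderiv ℝ ψ x (EuclideanSpace.single j 1)) = - integral Ω (fun x => mval z x (i, j) * ψ x)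

/-- `ρ ∈ L^∞ ∩ C([0,T]; L^p)` for all finite `p ≥ 1`, with `ρ(0) = ρ₀` -/
structure Density (Ω : Set E3) (T : ℝ) (ρ₀ : E3 → ℝ) (ρ : ℝ → SL Ω) : Prop where
  bdd : ∃ M, ∀ t ∈ Icc 0 T, AEin Ω fun x => |sval (ρ t) x| ≤ M
  cont : ∀ p : ℝ≥0∞, 1 ≤ p → p ≠ ⊤ → ∀ t ∈ Icc 0 T,
    Tendsto (fun s => eLpNorm (fun x => sval (ρ s) x - sval (ρ t) x) p (vol Ω)) (𝓝[Icc 0 T] t) (𝓝 0)
  init : AEin Ω fun x => sval (ρ 0) x = ρ₀ x

/-- `u ∈ L^∞(0,T; H)`, weakly continuous on `[0,T]` -/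
structure InH (Ω : Set E3) (T : ℝ) (u : ℝ → VL Ω) : Prop where
  bdd : ∃ M, ∀ t ∈ Icc 0 T, vnorm (u t) ≤ M
  sol : ∀ t ∈ Icc 0 T, u t ∈ H Ω
  wcont : ∀ v : VL Ω, ContinuousOn (fun t => vinner (u t) v) (Icc 0 T)

/-- `u ∈ L²(0,T; V)`, with `G = ∇u` -/
structure InV (Ω : Set E3) (T : ℝ) (u : ℝ → VL Ω) (G : ℝ → ML Ω) : Prop where
  grad : ∀ᵐ t ∂(volume.restrict (Ioo 0 T)), (u t, G t) ∈ V Ω
  gradL2 : MemLp G 2 (volume.restrict (Ioo 0 T))

/-- `B ∈ L²(0,T; H¹)`, with `D = ∇B` -/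
structure InW (Ω : Set E3) (T : ℝ) (B : ℝ → VL Ω) (D : ℝ → ML Ω) : Prop where
  grad : ∀ᵐ t ∂(volume.restrict (Ioo 0 T)), IsWeakGrad Ω (B t) (D t)
  gradL2 : MemLp D 2 (volume.restrict (Ioo 0 T))

/-! ### The equations -/

/-- the continuity equation with initial datum `ρ₀` -/
def Transport (Ω : Set E3) (T : ℝ) (ρ₀ : E3 → ℝ) (ρ : ℝ → SL Ω) (u : ℝ → VL Ω) : Prop :=
  ∀ ψ : ℝ → E3 → ℝ, STest T univ ψ →
    integralT T (fun t => integral Ω (fun x => sval (ρ t) x * (dts ψ t x + fderiv ℝ (ψ t) x (vval (u t) x))))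
      = - integral Ω (fun x => ρ₀ x * ψ 0 x)

/-- the integrand of the momentum equation -/
def momI (η : ℝ → ℝ) (r : ℝ) (v w φ φ' b c : E3) (z dφ : M3) : ℝ :=
  r * dot v φ' + r * quad v dφ - η r * symm z dφ + r * dot w φ + dot (cross c b) φ

/-- the momentum equation with initial data `ρ₀`, `u₀`, tested with all divergence free fields -/
def Momentum (Ω : Set E3) (T : ℝ) (η : ℝ → ℝ) (F : ℝ → E3 → E3) (ρ₀ : E3 → ℝ) (u₀ : E3 → E3)
    (ρ : ℝ → SL Ω) (u B : ℝ → VL Ω) (G D : ℝ → ML Ω) : Prop :=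
  ∀ φ : ℝ → E3 → E3, VTest T Ω φ → (∀ t x, div (jac (φ t) x) = 0) →
    integralT T (fun t => integral Ω (fun x =>
      momI η (sval (ρ t) x) (vval (u t) x) (F t x) (φ t x) (dtv φ t x) (vval (B t) x) (curl (mval (D t) x))
        (mval (G t) x) (jac (φ t) x)))
      = - integral Ω (fun x => ρ₀ x * dot (u₀ x) (φ 0 x))

/-- the integrand of the induction equation -/
def indI (s : ℝ) (v b φ' : E3) (c dφ : E3) : ℝ := dot b φ' - s⁻¹ * dot c dφ + dot (cross v b) dφ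

/-- the induction equation with initial datum `B₀`, tested up to the boundary (this contains the condition `curl B × n = 0`) -/
def Induction (Ω : Set E3) (T : ℝ) (σ : ℝ → ℝ) (B₀ : E3 → E3) (ρ : ℝ → SL Ω) (u B : ℝ → VL Ω) (D : ℝ → ML Ω) : Prop :=
  ∀ φ : ℝ → E3 → E3, VTest T univ φ →
    integralT T (fun t => integral Ω (fun x =>
      indI (σ (sval (ρ t) x)) (vval (u t) x) (vval (B t) x) (dtv φ t x) (curl (mval (D t) x)) (curl (jac (φ t) x))))
      = - integral Ω (fun x => dot (B₀ x) (φ 0 x))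

/-- `(ρ, u, B)` is a weak solution on `Ω × [0,T]` of the multifluid MHD system with viscosity `η(ρ)`, conductivity `σ(ρ)`, force `F` and
initial data `(ρ₀, u₀, B₀)`; `G = ∇u`, `D = ∇B`. -/
structure WeakSolution (Ω : Set E3) (T : ℝ) (η σ : ℝ → ℝ) (F : ℝ → E3 → E3) (ρ₀ : E3 → ℝ) (u₀ B₀ : E3 → E3)
    (ρ : ℝ → SL Ω) (u B : ℝ → VL Ω) (G D : ℝ → ML Ω) : Prop where
  density : Density Ω T ρ₀ ρ
  velocity : InH Ω T u
  gradient : InV Ω T u G
  magnetic : InH Ω T B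
  magnetic_gradient : InW Ω T B D
  transport : Transport Ω T ρ₀ ρ u
  momentum : Momentum Ω T η F ρ₀ u₀ ρ u B G D
  induction : Induction Ω T σ B₀ ρ u B D

/-- The energy inequality, for the viscosity `1`, `u₀ = 0` and no magnetic field: for all `t ∈ [0,T]`,
`(1/2) ∫ ρ |u|² (t) + ∫₀ᵗ ∫ |∇u|² ≤ ∫₀ᵗ ∫ ρ F · u`. -/
def EnergyInequality (Ω : Set E3) (T : ℝ) (F : ℝ → E3 → E3) (ρ : ℝ → SL Ω) (u : ℝ → VL Ω) (G : ℝ → ML Ω) : Prop :=
  ∀ t ∈ Icc 0 T, (1 / 2) * integral Ω (fun x => sval (ρ t) x * dot (vval (u t) x) (vval (u t) x))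
      + (∫ s in (0 : ℝ)..t, mnorm (G s) ^ 2)
    ≤ ∫ s in (0 : ℝ)..t, integral Ω (fun x => sval (ρ s) x * dot (F s x) (vval (u s) x))

open Classical in
/-- the density of two fluids: `2` in `U` and `1` outside `U` -/
def twoFluids (U : Set E3) (x : E3) : ℝ := if x ∈ U then 2 else 1

/-- a continuous force with compact support contained in `[0,T] × Ω` -/
structure Force (Ω : Set E3) (T : ℝ) (F : ℝ → E3 → E3) : Prop where
  cont : Continuous (fun p : ℝ × E3 => F p.1 p.2)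
  compact : HasCompactSupport (fun p : ℝ × E3 => F p.1 p.2)
  supp : tsupport (fun p : ℝ × E3 => F p.1 p.2) ⊆ Icc 0 T ×ˢ Ω

/-- the region of the second fluid: open, not empty, with closure in `Ω` and different from `Ω`, and boundary of measure zero -/
structure Region (Ω U : Set E3) : Prop where
  isOpen : IsOpen U
  nonempty : U.Nonempty
  closure : closure U ⊆ Ω
  rest : (Ω \ _root_.closure U).Nonempty
  boundary : volume (frontier U) = 0

end

lemma isTest_iff {Ω : Set E3} {φ : E3 → E3} : IsTest Ω φ ↔ H772R2.NS.IsTest Ω φ :=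
  ⟨fun h => ⟨h.1, h.2, h.3, h.4⟩, fun h => ⟨h.1, h.2, h.3, h.4⟩⟩

lemma H_eq (Ω : Set E3) : H Ω = H772R2.NS.L2sigma Ω := by
  unfold H H772R2.NS.L2sigma
  simp only [isTest_iff]
  rfl

lemma V_eq (Ω : Set E3) : V Ω = H772R2.NS.H1graph Ω := by
  unfold V H772R2.NS.H1graph
  simp only [isTest_iff]
  rfl

lemma of_lib {Ω : Set E3} {T : ℝ} {η σ : ℝ → ℝ} {f : ℝ → VL Ω} {r : SL Ω}
    {ρ : ℝ → SL Ω} {u : ℝ → VL Ω} {G : ℝ → ML Ω} {F : ℝ → E3 → E3} {ρ₀ : E3 → ℝ}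
    (h : N979MH.IsMHDSolution Ω T η σ f r 0 0 ρ u (fun _ => 0) G (fun _ => 0))
    (hf : ∀ t, f t =ᵐ[volume.restrict Ω] F t) (hr : r =ᵐ[volume.restrict Ω] ρ₀) :
    WeakSolution Ω T η σ F ρ₀ 0 0 ρ u (vzero Ω) G (mzero Ω) where
  density := ⟨h.dens_bdd, h.dens_cont, by
    have : AEin Ω fun x => sval (ρ 0) x = ρ₀ x := by rw [h.dens_init]; exact hr
    exact this⟩
  velocity := ⟨h.u_bdd, by rw [H_eq]; exact h.u_sol, h.u_wcont⟩
  gradient := ⟨by rw [V_eq]; exact h.u_grad, h.u_gradL2⟩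
  magnetic := ⟨h.B_bdd, by rw [H_eq]; exact h.B_sol, h.B_wcont⟩
  magnetic_gradient := ⟨h.B_grad, h.B_gradL2⟩
  transport := by
    rintro ψ ⟨h1, h2, h3⟩
    refine (h.dens_eqn ψ h1 h2 h3).trans ?_
    refine congrArg Neg.neg (integral_congr_ae ?_)
    filter_upwards [hr] with x hx
    rw [hx]
  momentum := by
    intro φ hφ hdiv
    have h1 := h.momentum φ ⟨hφ.1, hφ.2, hφ.3, hdiv⟩
    refine Eq.trans (Eq.trans ?_ h1) ?_
    · refine integral_congr_ae (Eventually.of_forall fun t => ?_)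
      refine integral_congr_ae ?_
      filter_upwards [hf t] with x hx
      simp only [momI]
      rw [← hx]
      rfl
    · refine congrArg Neg.neg (integral_congr_ae ?_)
      have hz : ((0 : VL Ω) : E3 → E3) =ᵐ[volume.restrict Ω] 0 := Lp.coeFn_zero _ _ _
      filter_upwards [hz] with x hx
      rw [hx]
      simp
  induction := by
    rintro φ ⟨h1, h2, h3⟩
    refine (h.induction φ h1 h2 h3).trans ?_
    refine congrArg Neg.neg (integral_congr_ae ?_)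
    have hz : ((0 : VL Ω) : E3 → E3) =ᵐ[volume.restrict Ω] 0 := Lp.coeFn_zero _ _ _
    filter_upwards [hz] with x hx
    rw [hx]

lemma energy_of_lib {Ω : Set E3} {T : ℝ} {f : ℝ → VL Ω} {ρ : ℝ → SL Ω} {u : ℝ → VL Ω} {G : ℝ → ML Ω} {F : ℝ → E3 → E3}
    (h : ∀ t ∈ Icc 0 T, (1 / 2) * (∫ x in Ω, ρ t x * ‖u t x‖ ^ 2) + (∫ s in (0 : ℝ)..t, ‖G s‖ ^ 2)
      ≤ ∫ s in (0 : ℝ)..t, ∫ x in Ω, ρ s x * ⟪f s x, u s x⟫_ℝ)
    (hf : ∀ t, f t =ᵐ[volume.restrict Ω] F t) : EnergyInequality Ω T F ρ u G := by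
  intro t ht
  have h1 := h t ht
  simp only [← real_inner_self_eq_norm_sq] at h1
  have h2 : ∫ s in (0 : ℝ)..t, integral Ω (fun x => sval (ρ s) x * dot (F s x) (vval (u s) x))
      = ∫ s in (0 : ℝ)..t, ∫ x in Ω, ρ s x * ⟪f s x, u s x⟫_ℝ := by
    refine intervalIntegral.integral_congr fun s _ => ?_
    refine integral_congr_ae ?_
    filter_upwards [hf s] with x hx
    rw [hx]
  rw [h2]
  simp only [← real_inner_self_eq_norm_sq]
  exact h1

/-- **Non-uniqueness for two immiscible fluids.** -/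
theorem result (Ω : Set E3) (hΩ : IsOpen Ω) (hb : Bornology.IsBounded Ω) (h0 : (0 : E3) ∈ Ω) (T : ℝ) (hT : 0 < T) (σ : ℝ → ℝ) :
    ∃ (U : Set E3) (F : ℝ → E3 → E3), Region Ω U ∧ Force Ω T F ∧
      ∃ (ρ₁ ρ₂ : ℝ → SL Ω) (u₁ u₂ : ℝ → VL Ω) (G₁ G₂ : ℝ → ML Ω),
        WeakSolution Ω T (fun _ => 1) σ F (twoFluids U) 0 0 ρ₁ u₁ (vzero Ω) G₁ (mzero Ω) ∧ EnergyInequality Ω T F ρ₁ u₁ G₁ ∧
        WeakSolution Ω T (fun _ => 1) σ F (twoFluids U) 0 0 ρ₂ u₂ (vzero Ω) G₂ (mzero Ω) ∧ EnergyInequality Ω T F ρ₂ u₂ G₂ ∧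
        ∃ t ∈ Icc 0 T, u₁ t ≠ u₂ t := by
  obtain ⟨P, rfl, hd, r, f, hr, hf, -, -, ρ₁, ρ₂, u₁, u₂, G₁, G₂, S1, S2, e1, e2, hne⟩ :=
    Pool.Agent.H362.MH.two Ω hΩ hb h0 T hT
  have hbd : Metric.closedBall (0 : E3) P.d ⊆ Ω :=
    (Metric.closedBall_subset_closedBall (by linarith [P.hd])).trans hd
  have hrho : (r : E3 → ℝ) =ᵐ[volume.restrict Ω] twoFluids (Pool.Agent.H362.MH.heavy P) := by
    filter_upwards [hr] with x hx
    rw [hx]
    unfold twoFluids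
    split_ifs with h
    · exact Pool.Agent.H362.MH.rho0_heavy P h
    · exact Pool.Agent.H362.MH.rho0_light P h
  refine ⟨Pool.Agent.H362.MH.heavy P, P.f, ⟨Pool.Agent.H362.MH.isOpen_heavy P, Pool.Agent.H362.MH.heavy_nonempty P,
    ((Pool.Agent.H362.MH.closure_heavy P).trans Metric.ball_subset_closedBall).trans hbd, ?_,
    Pool.Agent.H362.MH.frontier_null P⟩, ⟨Pool.Agent.H362.MH.f_cont P, Pool.Agent.H362.MH.f_compact P,
    (Pool.Agent.H362.MH.f_tsupport P).trans (prod_mono_right hbd)⟩, ρ₁, ρ₂, u₁, u₂, G₁, G₂,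
    of_lib (Pool.Agent.H362.MH.change_sigma σ S1) hf hrho, energy_of_lib e1 hf,
    of_lib (Pool.Agent.H362.MH.change_sigma σ S2) hf hrho, energy_of_lib e2 hf, hne⟩
  obtain ⟨x, hx1, hx2⟩ := Pool.Agent.H362.MH.light_nonempty P
  exact ⟨x, hd hx1, hx2⟩

end Pool.Agent.Results.MP_59296a_an.TwoFluidNonUniqueness
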